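import Mathlib
import Pool.Agent.V1112.HopfGen
import Pool.Agent.V1112.Doi

/-!
# A Doi cocycle deformation that is not a deformation via a matched pair

In characteristic two let `H = k[g, x]` with `g ^ 2 = 1`, `x ^ 2 = 0`, `g` group-like and
`Δ(x) = x ⊗ 1 + g ⊗ x`. Every unitary cocentral coalgebra map `r : H → A` is trivial, so `H_r = H` is
commutative for every matched pair, while a suitable cocycle `σ` makes `H_σ` noncommutative.
-/

set_option autoImplicit false

namespace Pool.Agent.Results.MP_16410b_al.DoiNotMatched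

open TensorProduct Coalgebra Quaternion Pool.Agent.V1112.Doi

universe u v

section construction

set_option linter.unusedSectionVars false
set_option linter.unusedSimpArgs false

variable (k : Type u) [Field k] [CharP k 2]

theorem add_self' {M : Type*} [AddCommGroup M] [Module k M] (x : M) : x + x = 0 := by
  rw [← two_smul k x, CharTwo.two_eq_zero, zero_smul]

theorem neg_self' {M : Type*} [AddCommGroup M] [Module k M] (x : M) : -x = x := by
  rw [neg_eq_iff_add_eq_zero]; exact add_self' k x

/-- The algebra. -/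
abbrev H := ℍ[k, 1, 0, 0]

/-- The group-like element `g`. -/
def g : H k := ⟨0, 1, 0, 0⟩

/-- The skew-primitive element `x`. -/
def x : H k := ⟨0, 0, 1, 0⟩

theorem gg : g k * g k = 1 := by ext <;> simp [g]

theorem xx : x k * x k = 0 := by ext <;> simp [x]

theorem xg : x k * g k = g k * x k := by
  ext <;> simp [g, x]
  exact CharTwo.neg_eq (1 : k)

/-- The comultiplication on generators. -/
def comulBasis : QuaternionAlgebra.Basis (H k ⊗[k] H k) (1 : k) 0 0 where
  i := g k ⊗ₜ g k
  j := x k ⊗ₜ 1 + g k ⊗ₜ x k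
  k := (g k ⊗ₜ g k) * (x k ⊗ₜ 1 + g k ⊗ₜ x k)
  i_mul_i := by
    simp [Algebra.TensorProduct.tmul_mul_tmul, gg, Algebra.TensorProduct.one_def]
  j_mul_j := by
    simp only [mul_add, add_mul, Algebra.TensorProduct.tmul_mul_tmul, xx, xg, gg, mul_one, one_mul]
    simp only [zero_tmul, tmul_zero, zero_smul, add_zero, zero_add]
    exact add_self' k _
  i_mul_j := rfl
  j_mul_i := by
    simp only [mul_add, add_mul, Algebra.TensorProduct.tmul_mul_tmul, xg, gg, mul_one, one_mul]
    rw [zero_smul, zero_sub, neg_self' k]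

/-- The counit on generators. -/
def counitBasis : QuaternionAlgebra.Basis k (1 : k) 0 0 where
  i := 1
  j := 0
  k := 0
  i_mul_i := by simp
  j_mul_j := by simp
  i_mul_j := by simp
  j_mul_i := by simp

/-- The comultiplication. -/
noncomputable def Δ : H k →ₐ[k] H k ⊗[k] H k := QuaternionAlgebra.lift (comulBasis k)

/-- The counit. -/
noncomputable def ε : H k →ₐ[k] k := QuaternionAlgebra.lift (counitBasis k)

theorem Δ_g : Δ k (g k) = g k ⊗ₜ g k := by
  simp [Δ, g, comulBasis, QuaternionAlgebra.Basis.lift]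

theorem Δ_x : Δ k (x k) = x k ⊗ₜ 1 + g k ⊗ₜ x k := by
  simp [Δ, x, comulBasis, QuaternionAlgebra.Basis.lift]

theorem ε_g : ε k (g k) = 1 := by
  simp [ε, g, counitBasis, QuaternionAlgebra.Basis.lift]

theorem ε_x : ε k (x k) = 0 := by
  simp [ε, x, counitBasis, QuaternionAlgebra.Basis.lift]

theorem Δ_gx : Δ k (g k * x k) = (g k * x k) ⊗ₜ g k + 1 ⊗ₜ (g k * x k) := by
  rw [map_mul, Δ_g, Δ_x, mul_add, Algebra.TensorProduct.tmul_mul_tmul,
    Algebra.TensorProduct.tmul_mul_tmul, gg, mul_one]

theorem ε_gx : ε k (g k * x k) = 0 := by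
  rw [map_mul, ε_x, mul_zero]

theorem self_i :
    (QuaternionAlgebra.Basis.self k : QuaternionAlgebra.Basis (H k) (1 : k) 0 0).i = g k := rfl

theorem self_j :
    (QuaternionAlgebra.Basis.self k : QuaternionAlgebra.Basis (H k) (1 : k) 0 0).j = x k := rfl

/-- The bialgebra structure. -/
noncomputable abbrev bialg : Bialgebra k (H k) :=
  Bialgebra.ofAlgHom (Δ k) (ε k)
    (by
      apply QuaternionAlgebra.hom_ext
      · rw [self_i]
        simp [Δ_g]
      · rw [self_j]
        simp [Δ_x, Δ_g, tmul_add, add_tmul, Algebra.TensorProduct.one_def, add_assoc])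
    (by
      apply QuaternionAlgebra.hom_ext
      · rw [self_i]; simp [Δ_g, ε_g]
      · rw [self_j]; simp [Δ_x, ε_x, ε_g])
    (by
      apply QuaternionAlgebra.hom_ext
      · rw [self_i]; simp [Δ_g, ε_g]
      · rw [self_j]; simp [Δ_x, ε_x])

/-- The antipode: `S 1 = 1`, `S g = g`, `S x = g x`, `S (g x) = x`. -/
def S : H k →ₗ[k] H k where
  toFun x := ⟨x.re, x.imI, x.imK, x.imJ⟩
  map_add' x y := by ext <;> simp
  map_smul' a x := by ext <;> simp

theorem S_mul (x y : H k) : S k (x * y) = S k y * S k x := by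
  have h2 : (2 : k) = 0 := CharTwo.two_eq_zero
  ext <;> simp [S]
  · ring
  · ring
  · linear_combination (y.imJ * x.imI - x.imJ * y.imI) * h2
  · linear_combination (x.imI * y.imK - x.imK * y.imI) * h2

theorem S_one : S k 1 = 1 := by ext <;> simp [S]

theorem S_g : S k (g k) = g k := by ext <;> simp [S, g]

theorem S_x : S k (x k) = g k * x k := by ext <;> simp [S, g, x]

theorem S_gx : S k (g k * x k) = x k := by ext <;> simp [S, g, x]

theorem eq_comb (y : H k) :
    y = y.re • 1 + y.imI • g k + y.imJ • x k + y.imK • (g k * x k) := by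
  ext <;> simp [g, x]

theorem adjoin_eq : Algebra.adjoin k ({g k, x k} : Set (H k)) = ⊤ := by
  rw [eq_top_iff]
  intro y _
  rw [eq_comb k y]
  have h1 : g k ∈ Algebra.adjoin k ({g k, x k} : Set (H k)) := Algebra.subset_adjoin (by simp)
  have h2 : x k ∈ Algebra.adjoin k ({g k, x k} : Set (H k)) := Algebra.subset_adjoin (by simp)
  exact add_mem (add_mem (add_mem (Subalgebra.smul_mem _ (one_mem _) _)
    (Subalgebra.smul_mem _ h1 _))
    (Subalgebra.smul_mem _ h2 _)) (Subalgebra.smul_mem _ (mul_mem h1 h2) _)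

/-- The Hopf algebra structure. -/
noncomputable abbrev hopf : HopfAlgebra k (H k) :=
  letI := bialg k
  Pool.Agent.V1112.HopfGen.ofGenerators {g k, x k} (adjoin_eq k) (S k) (S_mul k) (S_one k)
    (by
      rintro a (rfl | rfl)
      · change LinearMap.mul' k (H k) ((S k).rTensor (H k) (Δ k (g k))) =
          algebraMap k (H k) (ε k (g k))
        simp [Δ_g, ε_g, S_g, gg]
      · change LinearMap.mul' k (H k) ((S k).rTensor (H k) (Δ k (x k))) =
          algebraMap k (H k) (ε k (x k))
        simp [Δ_x, ε_x, S_x, S_g, add_self' k])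
    (by
      rintro a (rfl | rfl)
      · change LinearMap.mul' k (H k) ((S k).lTensor (H k) (Δ k (g k))) =
          algebraMap k (H k) (ε k (g k))
        simp [Δ_g, ε_g, S_g, gg]
      · change LinearMap.mul' k (H k) ((S k).lTensor (H k) (Δ k (x k))) =
          algebraMap k (H k) (ε k (x k))
        simp [Δ_x, ε_x, S_x, S_one, ← mul_assoc, gg, add_self' k])

theorem ext4 {M : Type*} [AddCommGroup M] [Module k M] {f f' : H k →ₗ[k] M} (h1 : f 1 = f' 1)
    (h2 : f (g k) = f' (g k)) (h3 : f (x k) = f' (x k)) (h4 : f (g k * x k) = f' (g k * x k)) :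
    f = f' := by
  ext y
  rw [eq_comb k y]
  simp only [map_add, map_smul, h1, h2, h3, h4]

noncomputable local instance : HopfAlgebra k (H k) := hopf k

theorem comul_one' : comul (R := k) (1 : H k) = 1 ⊗ₜ 1 := Bialgebra.comul_one

theorem comul_g : comul (R := k) (g k) = g k ⊗ₜ g k := Δ_g k

theorem comul_x : comul (R := k) (x k) = x k ⊗ₜ 1 + g k ⊗ₜ x k := Δ_x k

theorem comul_gx : comul (R := k) (g k * x k) = (g k * x k) ⊗ₜ g k + 1 ⊗ₜ (g k * x k) := Δ_gx k

theorem counit_one' : counit (R := k) (1 : H k) = 1 := Bialgebra.counit_one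

theorem counit_g : counit (R := k) (g k) = 1 := ε_g k

theorem counit_x : counit (R := k) (x k) = 0 := ε_x k

theorem counit_gx : counit (R := k) (g k * x k) = 0 := ε_gx k

/-- The functional `y ↦ y_x + y_{gx}`. -/
def D : H k →ₗ[k] k where
  toFun y := y.imJ + y.imK
  map_add' x y := by simp; ring
  map_smul' a x := by simp; ring

/-- The functional `y ↦ y_g`. -/
def γ : H k →ₗ[k] k where
  toFun y := y.imI
  map_add' x y := by simp
  map_smul' a x := by simp

theorem D_one : D k 1 = 0 := by simp [D]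
theorem D_g : D k (g k) = 0 := by simp [D, g]
theorem D_x : D k (x k) = 1 := by simp [D, x]
theorem D_gx : D k (g k * x k) = 1 := by simp [D, x, g]
theorem γ_one : γ k 1 = 0 := by simp [γ]
theorem γ_g : γ k (g k) = 1 := by simp [γ, g]
theorem γ_x : γ k (x k) = 0 := by simp [γ, x]
theorem γ_gx : γ k (g k * x k) = 0 := by simp [γ, x, g]

/-- The cocycle `ε ⊗ ε + D ⊗ γ`. -/
noncomputable def σ : H k ⊗[k] H k →ₗ[k] k :=
  LinearMap.mul' k k ∘ₗ (TensorProduct.map counit counit + TensorProduct.map (D k) (γ k))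

theorem σ_tmul (a b : H k) : σ k (a ⊗ₜ b) =
    counit (R := k) a * counit (R := k) b + D k a * γ k b := by
  simp [σ]

theorem gxg : g k * x k * g k = x k := by
  rw [mul_assoc, xg, ← mul_assoc, gg, one_mul]

theorem ggx : g k * (g k * x k) = x k := by
  rw [← mul_assoc, gg, one_mul]

theorem xgx : x k * (g k * x k) = 0 := by
  rw [← mul_assoc, xg, mul_assoc, xx, mul_zero]

theorem gxx : g k * x k * x k = 0 := by
  rw [mul_assoc, xx, mul_zero]

theorem gxgx : g k * x k * (g k * x k) = 0 := by
  rw [mul_assoc, xgx, mul_zero]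

theorem conv_tmul (f f' : H k ⊗[k] H k →ₗ[k] k) (a b : H k) :
    conv k f f' (a ⊗ₜ b) = LinearMap.mul' k k (TensorProduct.map f f'
      (AlgebraTensorModule.tensorTensorTensorComm k k k k (H k) (H k) (H k) (H k)
        (comul (R := k) a ⊗ₜ comul (R := k) b))) := rfl

/-- The basis `1, g, x, g x`. -/
def B : Set (H k) := {1, g k, x k, g k * x k}

theorem ext_B {M : Type*} [AddCommGroup M] [Module k M] {f f' : H k →ₗ[k] M}
    (h : ∀ a ∈ B k, f a = f' a) : f = f' :=
  ext4 k (h _ (by simp [B])) (h _ (by simp [B])) (h _ (by simp [B])) (h _ (by simp [B]))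

theorem ext2_B {M : Type*} [AddCommGroup M] [Module k M] {f f' : H k ⊗[k] H k →ₗ[k] M}
    (h : ∀ a ∈ B k, ∀ b ∈ B k, f (a ⊗ₜ b) = f' (a ⊗ₜ b)) : f = f' :=
  TensorProduct.ext (ext_B k fun a ha => ext_B k fun b hb => h a ha b hb)

theorem ext3_B {M : Type*} [AddCommGroup M] [Module k M] {f f' : H k ⊗[k] (H k ⊗[k] H k) →ₗ[k] M}
    (h : ∀ a ∈ B k, ∀ b ∈ B k, ∀ c ∈ B k, f (a ⊗ₜ (b ⊗ₜ c)) = f' (a ⊗ₜ (b ⊗ₜ c))) : f = f' :=
  TensorProduct.ext (ext_B k fun a ha => ext2_B k fun b hb c hc => h a ha b hb c hc)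

theorem conv_σ : conv k (σ k) (σ k) = counit := by
  apply ext2_B
  rintro a (rfl | rfl | rfl | rfl) b (rfl | rfl | rfl | rfl)
  all_goals
    simp only [conv_tmul, comul_one', comul_g,
      comul_x, comul_gx, tmul_add, add_tmul, map_add, TensorProduct.map_tmul,
      AlgebraTensorModule.tensorTensorTensorComm_tmul, LinearMap.mul'_apply, σ_tmul,
      TensorProduct.counit_tmul, smul_eq_mul,
      counit_one', counit_g, counit_x, counit_gx, D_one, D_g, D_x, D_gx, γ_one, γ_g, γ_x, γ_gx]
    simp [CharTwo.add_self_eq_zero]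

theorem conv3_tmul (f f' : H k ⊗[k] (H k ⊗[k] H k) →ₗ[k] k) (a b c : H k) :
    conv k f f' (a ⊗ₜ (b ⊗ₜ c)) = LinearMap.mul' k k (TensorProduct.map f f'
      (AlgebraTensorModule.tensorTensorTensorComm k k k k (H k) (H k) (H k ⊗[k] H k)
        (H k ⊗[k] H k)
        (comul (R := k) a ⊗ₜ AlgebraTensorModule.tensorTensorTensorComm k k k k (H k) (H k) (H k)
          (H k) (comul (R := k) b ⊗ₜ comul (R := k) c)))) := rfl

theorem isSweedlerCocycle : IsSweedlerCocycle k (H k) (σ k) (σ k) where
  mul_inv := conv_σ k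
  inv_mul := conv_σ k
  apply_one h := by simp [σ_tmul, γ_one]
  one_apply h := by simp [σ_tmul, D_one]
  cocycle := by
    apply ext3_B
    rintro a (rfl | rfl | rfl | rfl) b (rfl | rfl | rfl | rfl) c (rfl | rfl | rfl | rfl)
    all_goals
      simp only [conv3_tmul, comul_one', comul_g,
        comul_x, comul_gx, tmul_add, add_tmul, map_add, TensorProduct.map_tmul,
        AlgebraTensorModule.tensorTensorTensorComm_tmul, LinearMap.mul'_apply, σ_tmul,
        LinearMap.comp_apply, LinearEquiv.coe_coe, TensorProduct.assoc_symm_tmul, LinearMap.id_apply,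
        one_mul, mul_one, gg, xx, xg, gxg, ggx, xgx, gxx, gxgx, map_zero, zero_mul, mul_zero,
        TensorProduct.counit_tmul, smul_eq_mul, zero_tmul, tmul_zero,
        counit_one', counit_g, counit_x, counit_gx, D_one, D_g, D_x, D_gx, γ_one, γ_g, γ_x, γ_gx]
    all_goals simp [CharTwo.add_self_eq_zero]

theorem convH_tmul (f f' : H k ⊗[k] H k →ₗ[k] H k) (a b : H k) :
    conv k f f' (a ⊗ₜ b) = LinearMap.mul' k (H k) (TensorProduct.map f f'
      (AlgebraTensorModule.tensorTensorTensorComm k k k k (H k) (H k) (H k) (H k)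
        (comul (R := k) a ⊗ₜ comul (R := k) b))) := rfl

theorem doi_xg : doiMul k (H k) (σ k) (σ k) (x k ⊗ₜ g k) = 1 + g k + g k * x k := by
  rw [doiMul]
  simp only [convH_tmul, comul_one', comul_g,
    comul_x, comul_gx, tmul_add, add_tmul, map_add, TensorProduct.map_tmul,
    AlgebraTensorModule.tensorTensorTensorComm_tmul, LinearMap.mul'_apply, σ_tmul,
    LinearMap.comp_apply, Algebra.linearMap_apply,
    counit_one', counit_g, counit_x, counit_gx, D_one, D_g, D_x, D_gx, γ_one, γ_g, γ_x, γ_gx]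
  simp [gg, xg]
  abel

theorem doi_gx : doiMul k (H k) (σ k) (σ k) (g k ⊗ₜ x k) = g k * x k := by
  rw [doiMul]
  simp only [convH_tmul, comul_one', comul_g,
    comul_x, comul_gx, tmul_add, add_tmul, map_add, TensorProduct.map_tmul,
    AlgebraTensorModule.tensorTensorTensorComm_tmul, LinearMap.mul'_apply, σ_tmul,
    LinearMap.comp_apply, Algebra.linearMap_apply,
    counit_one', counit_g, counit_x, counit_gx, D_one, D_g, D_x, D_gx, γ_one, γ_g, γ_x, γ_gx]
  simp [gg, xg]

theorem doi_ne : doiMul k (H k) (σ k) (σ k) (x k ⊗ₜ g k) ≠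
    doiMul k (H k) (σ k) (σ k) (g k ⊗ₜ x k) := by
  rw [doi_xg, doi_gx]
  intro h
  have := congrArg QuaternionAlgebra.re h
  simp [g, x] at this

theorem mul_comm' (a b : H k) : a * b = b * a := by
  have h2 : (2 : k) = 0 := CharTwo.two_eq_zero
  ext <;> simp
  · ring
  · ring
  · linear_combination (a.imI * b.imK - a.imK * b.imI) * h2
  · linear_combination (a.imI * b.imJ - a.imJ * b.imI) * h2

variable {k}

section rtriv

variable {A : Type v} [Ring A] [HopfAlgebra k A]

/-- Contract the second factor with a functional. -/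
noncomputable def contract (φ : H k →ₗ[k] k) : A ⊗[k] H k →ₗ[k] A :=
  (TensorProduct.rid k A).toLinearMap ∘ₗ φ.lTensor A

theorem contract_tmul (φ : H k →ₗ[k] k) (a : A) (b : H k) :
    contract φ (a ⊗ₜ b) = φ b • a := by
  simp [contract]

/-- The functional `re`. -/
def fre : H k →ₗ[k] k where
  toFun y := y.re
  map_add' x y := by simp
  map_smul' a x := by simp

/-- The functional `imJ`. -/
def fj : H k →ₗ[k] k where
  toFun y := y.imJ
  map_add' x y := by simp
  map_smul' a x := by simp

theorem r_x (r : H k →ₗc[k] A) (h1 : r 1 = 1) (hc : ∀ h : H k,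
    TensorProduct.map r.toLinearMap LinearMap.id (comul (R := k) h) =
    TensorProduct.map r.toLinearMap LinearMap.id (TensorProduct.comm k (H k) (H k)
      (comul (R := k) h))) : r (x k) = 0 ∧ r (g k) = 1 ∧ r (g k * x k) = 0 := by
  have e1 := hc (x k)
  have e2 := hc (g k * x k)
  simp only [comul_x, comul_gx, map_add, TensorProduct.map_tmul, TensorProduct.comm_tmul,
    LinearMap.id_apply] at e1 e2
  refine ⟨?_, ?_, ?_⟩
  · have := congrArg (contract (fre (k := k))) e1
    simpa [contract_tmul, fre, g, x] using this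
  · have := congrArg (contract (fj (k := k))) e1
    simpa [contract_tmul, fj, g, x, h1] using this
  · have := congrArg (contract (fre (k := k))) e2
    simpa [contract_tmul, fre, g, x] using this.symm

theorem deformMul_eq (M : MatchedPair k (H k) A) (r : H k →ₗc[k] A) (hr : IsDeformationMap M r) :
    deformMul M r = LinearMap.mul' k (H k) := by
  obtain ⟨hx, hg, hgx⟩ := r_x r hr.map_one hr.cocentral
  apply ext2_B
  intro a _ b hb
  have key : TensorProduct.map r.toLinearMap LinearMap.id (comul (R := k) b) = 1 ⊗ₜ b := by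
    have hx' : r.toLinearMap (x k) = 0 := hx
    have hg' : r.toLinearMap (g k) = 1 := hg
    have hgx' : r.toLinearMap (g k * x k) = 0 := hgx
    have h1' : r.toLinearMap 1 = 1 := hr.map_one
    rcases hb with rfl | rfl | rfl | rfl
    · simp only [comul_one', TensorProduct.map_tmul, h1', LinearMap.id_apply]
    · simp only [comul_g, TensorProduct.map_tmul, hg', LinearMap.id_apply]
    · simp only [comul_x, map_add, TensorProduct.map_tmul, hg', hx', LinearMap.id_apply, zero_tmul,
        zero_add]
    · simp only [comul_gx, map_add, TensorProduct.map_tmul, hgx', h1', LinearMap.id_apply,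
        zero_tmul, zero_add]
  have hM : M.ract.toLinearMap (a ⊗ₜ 1) = a := M.ract_one a
  simp only [deformMul, LinearMap.comp_apply, LinearMap.lTensor_tmul, key,
    LinearEquiv.coe_coe, TensorProduct.assoc_symm_tmul, LinearMap.rTensor_tmul, hM]

theorem final_aux (M : MatchedPair k (H k) A) (r : H k →ₗc[k] A) (hr : IsDeformationMap M r) :
    deformMul M r ≠ doiMul k (H k) (σ k) (σ k) ∧
      ¬ ∃ e : H k ≃ₗ[k] H k, ∀ a b : H k,
        e (deformMul M r (a ⊗ₜ b)) = doiMul k (H k) (σ k) (σ k) (e a ⊗ₜ e b) := by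
  have key : ¬ ∃ e : H k ≃ₗ[k] H k, ∀ a b : H k,
      e (deformMul M r (a ⊗ₜ b)) = doiMul k (H k) (σ k) (σ k) (e a ⊗ₜ e b) := by
    rintro ⟨e, he⟩
    apply doi_ne k
    have h1 := he (e.symm (x k)) (e.symm (g k))
    have h2 := he (e.symm (g k)) (e.symm (x k))
    rw [deformMul_eq M r hr, LinearMap.mul'_apply, e.apply_symm_apply, e.apply_symm_apply] at h1 h2
    rw [← h1, ← h2, mul_comm']
  refine ⟨fun h => key ⟨LinearEquiv.refl k _, fun a b => ?_⟩, key⟩
  rw [h]
  rfl

end rtriv

end construction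

/-- The Hopf algebra `H` has a normalized Sweedler cocycle `σ` such that for every Hopf algebra `A`,
every matched pair `(A, H, ◁, ▷)` and every deformation map `r : H → A`, the multiplications of `H_r`
and `H_σ` are different and no linear bijection of `H` carries one to the other. -/
def HasUnmatchedCocycle (k H : Type*) [Field k] [Ring H] [HopfAlgebra k H] : Prop :=
  ∃ σ σ' : H ⊗[k] H →ₗ[k] k, IsSweedlerCocycle k H σ σ' ∧
    ∀ (A : Type v) [Ring A] [HopfAlgebra k A] (M : MatchedPair k H A) (r : H →ₗc[k] A),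
      IsDeformationMap M r →
        deformMul M r ≠ doiMul k H σ σ' ∧
        ¬ ∃ e : H ≃ₗ[k] H, ∀ a b : H, e (deformMul M r (a ⊗ₜ b)) = doiMul k H σ σ' (e a ⊗ₜ e b)

/-- Over every field of characteristic two there are a Hopf algebra `H` and a normalized Sweedler
cocycle `σ` on `H` such that for every Hopf algebra `A`, every matched pair `(A, H, ◁, ▷)` and every
deformation map `r : H → A` the algebras `H_r` and `H_σ` are not isomorphic, and in particular
`H_r ≠ H_σ`. -/
theorem result : ∀ (k : Type u) [Field k] [CharP k 2],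
    ∃ (H : Type u) (_ : Ring H) (_ : HopfAlgebra k H), HasUnmatchedCocycle.{v} k H := by
  intro k _ _
  exact ⟨H k, QuaternionAlgebra.instRing, hopf k, σ k, σ k, isSweedlerCocycle k,
    fun A _ _ M r hr => final_aux M r hr⟩

end Pool.Agent.Results.MP_16410b_al.DoiNotMatched
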